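import Mathlib

/-!
# Lattices: automorphisms have determinant `±1`, and a counting inequality
-/

set_option autoImplicit false

open Set MeasureTheory Module

namespace Pool.Agent.Helper77.KT

/-- A linear automorphism which preserves a lattice has determinant `1` or `-1`. -/
theorem abs_det_eq_one {E : Type*} [NormedAddCommGroup E] [NormedSpace ℝ E] [FiniteDimensional ℝ E]
    (L : Submodule ℤ E) [DiscreteTopology L] [IsZLattice ℝ L] (f : E ≃ₗ[ℝ] E)
    (hf : ∀ x ∈ L, f x ∈ L) (hf' : ∀ x ∈ L, f.symm x ∈ L) :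
    |LinearMap.det (f : E →ₗ[ℝ] E)| = 1 := by
  have : Module.Finite ℤ L := ZLattice.module_finite ℝ L
  have : Module.Free ℤ L := ZLattice.module_free ℝ L
  let b := Module.Free.chooseBasis ℤ L
  let g : L →ₗ[ℤ] L := ((f.toLinearMap.restrictScalars ℤ).comp L.subtype).codRestrict L
    fun x => hf x x.2
  let g' : L →ₗ[ℤ] L := ((f.symm.toLinearMap.restrictScalars ℤ).comp L.subtype).codRestrict L
    fun x => hf' x x.2
  have hg : g * g' = 1 := by
    ext x
    change f (f.symm (x : E)) = x
    rw [LinearEquiv.apply_symm_apply]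
  have h1 : LinearMap.det g * LinearMap.det g' = 1 := by
    rw [← map_mul, hg, map_one]
  have h2 : |LinearMap.det g| = 1 := Int.isUnit_iff_abs_eq.1 (IsUnit.of_mul_eq_one _ h1)
  let B := b.ofZLatticeBasis ℝ L
  have h3 : LinearMap.toMatrix B B (f : E →ₗ[ℝ] E) =
      (LinearMap.toMatrix b b g).map (Int.castRingHom ℝ) := by
    ext i j
    rw [LinearMap.toMatrix_apply, Matrix.map_apply, LinearMap.toMatrix_apply]
    have h4 : B j = (b j : E) := b.ofZLatticeBasis_apply ℝ L j
    rw [h4]
    have h5 := b.ofZLatticeBasis_repr_apply ℝ L (g (b j)) i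
    exact h5
  have h6 : LinearMap.det (f : E →ₗ[ℝ] E) = ((LinearMap.det g : ℤ) : ℝ) := by
    rw [← LinearMap.det_toMatrix B, h3, ← LinearMap.det_toMatrix b]
    exact (RingHom.map_det (Int.castRingHom ℝ) (LinearMap.toMatrix b b g)).symm
  rw [h6, ← Int.cast_abs, h2, Int.cast_one]

/-- A counting inequality: sets of measure at least `v` in a space modulo a lattice, with bounded
multiplicity. -/
theorem count {E : Type*} [NormedAddCommGroup E] [NormedSpace ℝ E] [FiniteDimensional ℝ E]
    [MeasurableSpace E] [BorelSpace E] (μ : Measure E) [μ.IsAddHaarMeasure]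
    (L : Submodule ℤ E) [DiscreteTopology L] [IsZLattice ℝ L] :
    ∃ c : ENNReal, c ≠ ⊤ ∧ ∀ (ι : Type*) [Fintype ι] (D : ι → Set E) (f : ℕ) (v : ENNReal),
      (∀ i, MeasurableSet (D i)) → (∀ i, v ≤ μ (D i)) →
      (∀ p, {q : ι × L | (q.2 : E) + p ∈ D q.1}.encard ≤ f) →
      (Fintype.card ι : ENNReal) * v ≤ f * c := by
  have : Module.Finite ℤ L := ZLattice.module_finite ℝ L
  have : Module.Free ℤ L := ZLattice.module_free ℝ L
  have : Countable L := instCountable_of_discrete_submodule L
  let b := Module.Free.chooseBasis ℤ L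
  let F := ZSpan.fundamentalDomain (b.ofZLatticeBasis ℝ L)
  have hF : IsAddFundamentalDomain L F μ := ZLattice.isAddFundamentalDomain b μ
  have hFb : Bornology.IsBounded F := ZSpan.fundamentalDomain_isBounded _
  refine ⟨μ F, hFb.measure_lt_top.ne, ?_⟩
  intro ι _ D f v hD hv hf
  have h1 : (Fintype.card ι : ENNReal) * v ≤ ∑ i, μ (D i) := by
    rw [← nsmul_eq_mul, ← Finset.card_univ, ← Finset.sum_const]
    exact Finset.sum_le_sum fun i _ => hv i
  have : MeasurableConstVAdd L E := ⟨fun g => (continuous_const_add (g : E)).measurable⟩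
  have : VAddInvariantMeasure L E μ := ⟨fun g s _ => measure_preimage_add μ (g : E) s⟩
  have h2 : ∀ i, μ (D i) = ∑' g : L, ∫⁻ x in F, (D i).indicator 1 (g +ᵥ x) ∂μ := by
    intro i
    rw [← hF.lintegral_eq_tsum'', lintegral_indicator_one (hD i)]
  have hmeas : ∀ (i : ι) (g : L), Measurable fun x => (D i).indicator (1 : E → ENNReal) (g +ᵥ x) := by
    intro i g
    have : Measurable fun x : E => g +ᵥ x := (continuous_const_add (g : E)).measurable
    exact (measurable_one.indicator (hD i)).comp this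
  have h3 : ∑ i, μ (D i) = ∫⁻ x in F, ∑ i, ∑' g : L, (D i).indicator 1 (g +ᵥ x) ∂μ := by
    rw [lintegral_finsetSum _ fun i _ => Measurable.tsum fun g => hmeas i g]
    refine Finset.sum_congr rfl fun i _ => ?_
    rw [h2, lintegral_tsum fun g => (hmeas i g).aemeasurable]
  refine h1.trans (h3.le.trans ?_)
  calc ∫⁻ x in F, ∑ i, ∑' g : L, (D i).indicator 1 (g +ᵥ x) ∂μ
      ≤ ∫⁻ _ in F, (f : ENNReal) ∂μ := by
        refine lintegral_mono fun x => ?_
        have h4 : ∑ i, ∑' g : L, (D i).indicator (1 : E → ENNReal) (g +ᵥ x) =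
            ∑' q : ι × L, {q : ι × L | (q.2 : E) + x ∈ D q.1}.indicator (1 : ι × L → ENNReal) q := by
          rw [← tsum_fintype (L := SummationFilter.unconditional ι)]
          exact (ENNReal.tsum_prod (f := fun i (g : L) =>
            (D i).indicator (1 : E → ENNReal) (g +ᵥ x))).symm.trans (tsum_congr fun q => rfl)
        rw [h4, ← tsum_subtype]
        have h5 := ENNReal.tsum_set_one {q : ι × L | (q.2 : E) + x ∈ D q.1}
        have h6 : ∑' (q : {q : ι × L | (q.2 : E) + x ∈ D q.1}), (1 : ι × L → ENNReal) q =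
            ∑' (_ : {q : ι × L | (q.2 : E) + x ∈ D q.1}), (1 : ENNReal) := rfl
        rw [h6, h5]
        have h7 := hf x
        have h8 : ((({q : ι × L | (q.2 : E) + x ∈ D q.1}.encard : ℕ∞) : ENNReal)) ≤ ((f : ℕ∞) : ENNReal) :=
          ENat.toENNReal_mono h7
        simpa using h8
    _ = f * μ F := by rw [lintegral_const, Measure.restrict_apply_univ]

end Pool.Agent.Helper77.KT
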