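import Pool.Agent.Helper77.KT.Quot
import Pool.Agent.Helper77.K3.Main

/-!
# Finite generation, and the base case
-/

set_option autoImplicit false

open Set MeasureTheory Module Metric Topology
open scoped Pointwise

namespace Pool.Agent.Helper77.KT

/-- Selberg's lemma for finitely generated groups of affine maps. -/
def SelbergLemma (V : Type*) [NormedAddCommGroup V] [NormedSpace ℝ V] : Prop :=
  ∀ Γ : Subgroup (V ≃ᵃ[ℝ] V), Γ.FG → ∃ N : Subgroup (V ≃ᵃ[ℝ] V), N ≤ Γ ∧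
    (N.subgroupOf Γ).FiniteIndex ∧ ∀ γ ∈ N, ∀ k : ℕ, 0 < k → γ ^ k = 1 → γ = 1

namespace Klein

variable {V : Type*} [NormedAddCommGroup V] [NormedSpace ℝ V] [FiniteDimensional ℝ V]
  {Γ : Subgroup (V ≃ᵃ[ℝ] V)} {Ω : Set V} (H : Klein Γ Ω)

include H

/-- The group of Kleinian data is finitely generated. -/
theorem fg : Γ.FG := by
  obtain ⟨K, hKΩ, hK, hcov⟩ := H.cocompact
  obtain ⟨ε, hε, hεΩ⟩ := hK.exists_cthickening_subset_open H.isOpen hKΩ
  have hK₁c : IsCompact (cthickening ε K) := hK.cthickening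
  have hS := H.proper _ hεΩ hK₁c
  set S := {γ : V ≃ᵃ[ℝ] V | γ ∈ Γ ∧
    (((fun x => γ x) '' (cthickening ε K)) ∩ cthickening ε K).Nonempty} with hSdef
  have hPΓ : Subgroup.closure S ≤ Γ := (Subgroup.closure_le Γ).2 fun γ h => h.1
  have hsub : K ⊆ thickening ε K := self_subset_thickening hε K
  have hopen : ∀ A : Set (V ≃ᵃ[ℝ] V),
      IsOpen (⋃ γ ∈ A, (fun x => (γ : V ≃ᵃ[ℝ] V).symm x) ⁻¹' (thickening ε K)) := by
    intro A
    refine isOpen_biUnion fun γ _ => ?_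
    exact isOpen_thickening.preimage (AffineEquiv.continuous_of_finiteDimensional _)
  set A := ⋃ γ ∈ (Subgroup.closure S : Set (V ≃ᵃ[ℝ] V)),
    (fun x => (γ : V ≃ᵃ[ℝ] V).symm x) ⁻¹' (thickening ε K) with hA
  set B := ⋃ γ ∈ {γ : V ≃ᵃ[ℝ] V | γ ∈ Γ ∧ γ ∉ Subgroup.closure S},
    (fun x => (γ : V ≃ᵃ[ℝ] V).symm x) ⁻¹' (thickening ε K) with hB
  have hcover : Ω ⊆ A ∪ B := by
    intro x hx
    obtain ⟨γ, hγ, hγx⟩ := hcov x hx
    by_cases h : γ⁻¹ ∈ Subgroup.closure S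
    · exact Or.inl (mem_biUnion (x := γ⁻¹) h (hsub hγx))
    · exact Or.inr (mem_biUnion (x := γ⁻¹) ⟨Γ.inv_mem hγ, h⟩ (hsub hγx))
  have hdisj : Ω ∩ (A ∩ B) = ∅ := by
    rw [eq_empty_iff_forall_notMem]
    rintro x ⟨-, hxA, hxB⟩
    obtain ⟨γ, hγ, h1⟩ := mem_iUnion₂.1 hxA
    obtain ⟨δ, hδ, h2⟩ := mem_iUnion₂.1 hxB
    apply hδ.2
    have h3 : γ⁻¹ * δ ∈ S := by
      refine ⟨Γ.mul_mem (Γ.inv_mem (hPΓ hγ)) hδ.1, γ.symm x, ⟨δ.symm x, ?_, ?_⟩, ?_⟩
      · exact thickening_subset_cthickening _ _ h2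
      · change γ.symm (δ (δ.symm x)) = γ.symm x
        rw [AffineEquiv.apply_symm_apply]
      · exact thickening_subset_cthickening _ _ h1
    have h4 := Subgroup.mul_mem _ hγ (Subgroup.subset_closure h3)
    rwa [mul_inv_cancel_left] at h4
  obtain ⟨x₀, hx₀⟩ := H.conn.nonempty
  obtain ⟨γ₀, -, hk⟩ := hcov x₀ hx₀
  have hkA : γ₀ x₀ ∈ A := mem_biUnion (x := 1) (Subgroup.one_mem _) (hsub hk)
  have hΩA : Ω ⊆ A := by
    rcases isPreconnected_iff_subset_of_disjoint.1 H.conn.isPreconnected A B (hopen _)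
      (hopen _) hcover hdisj with h | h
    · exact h
    · exact absurd (show γ₀ x₀ ∈ Ω ∩ (A ∩ B) from ⟨hKΩ hk, hkA, h (hKΩ hk)⟩)
        (by rw [hdisj]; exact notMem_empty _)
  have hΓ : Subgroup.closure S = Γ := by
    refine le_antisymm hPΓ ?_
    intro γ hγ
    by_contra hcon
    have h1 : γ (γ₀ x₀) ∈ Ω := H.inv γ hγ _ (hKΩ hk)
    have h2 : γ (γ₀ x₀) ∈ B := by
      refine mem_biUnion (x := γ) ⟨hγ, hcon⟩ ?_
      change γ.symm (γ (γ₀ x₀)) ∈ thickening ε K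
      rw [AffineEquiv.symm_apply_apply]
      exact hsub hk
    exact absurd (show γ (γ₀ x₀) ∈ Ω ∩ (A ∩ B) from ⟨h1, hΩA h1, h2⟩)
        (by rw [hdisj]; exact notMem_empty _)
  rw [Subgroup.fg_iff]
  exact ⟨S, hΓ, hS⟩

/-- The base case. -/
theorem base (hsel : SelbergLemma V) (hV : finrank ℝ V ≤ 3) : Ω = univ := by
  obtain ⟨N, hNΓ, hfi, htf⟩ := hsel Γ H.fg
  let act : MulAction N Ω :=
    { smul := fun γ x => ⟨(γ : V ≃ᵃ[ℝ] V) x, H.inv _ (hNΓ γ.2) _ x.2⟩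
      one_smul := fun x => rfl
      mul_smul := fun γ δ x => rfl }
  have hsmul : ∀ (γ : N) (x : Ω), ((γ • x : Ω) : V) = (γ : V ≃ᵃ[ℝ] V) x := fun _ _ => rfl
  have hconn : ConnectedSpace Ω := isConnected_iff_connectedSpace.1 H.conn
  -- proper
  have hproper : ∀ K : Set Ω, IsCompact K →
      {g : N | (((fun y => g • y) '' K) ∩ K).Nonempty}.Finite := by
    intro K hK
    have h1 := H.proper ((↑) '' K) (by rintro _ ⟨x, _, rfl⟩; exact x.2)
      (hK.image continuous_subtype_val)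
    refine Set.Finite.of_finite_image (f := ((↑) : N → (V ≃ᵃ[ℝ] V))) (h1.subset ?_)
      Subtype.val_injective.injOn
    rintro _ ⟨g, ⟨_, ⟨y, hy, rfl⟩, hy'⟩, rfl⟩
    exact ⟨hNΓ g.2, (g : V ≃ᵃ[ℝ] V) y, ⟨y, ⟨y, hy, rfl⟩, rfl⟩, ⟨_, hy', rfl⟩⟩
  have hfree : ∀ (g : N) (y : Ω), g • y = y → g = 1 := by
    intro g y hgy
    have h1 := hproper {y} isCompact_singleton
    have h2 : ∀ k : ℕ, g ^ k • y = y := by
      intro k
      induction k with
      | zero => rw [pow_zero, one_smul]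
      | succ k ih => rw [pow_succ, mul_smul, hgy, ih]
    have h3 : {g : N | (((fun y => g • y) '' ({y} : Set Ω)) ∩ {y}).Nonempty}.Finite := h1
    have h4 : (range fun k : ℕ => g ^ k).Finite := by
      refine h3.subset ?_
      rintro _ ⟨k, rfl⟩
      exact ⟨y, ⟨y, rfl, h2 k⟩, rfl⟩
    have h5 : ¬ Function.Injective fun k : ℕ => g ^ k := by
      intro hinj
      exact infinite_range_of_injective hinj h4
    have h6 : IsOfFinOrder g := by
      by_contra h7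
      exact h5 (injective_pow_iff_not_isOfFinOrder.2 h7)
    obtain ⟨k, hk, hgk⟩ := isOfFinOrder_iff_pow_eq_one.1 h6
    refine Subtype.ext (htf g g.2 k hk ?_)
    rw [← Subgroup.coe_pow, hgk]
    rfl
  have hcoc : ∃ K : Set Ω, IsCompact K ∧ ∀ y, ∃ g : N, g • y ∈ K := by
    obtain ⟨K, hKΩ, hK, hcov⟩ := H.cocompact
    have hQ : Finite (Γ ⧸ N.subgroupOf Γ) := Subgroup.finite_quotient_of_finiteIndex
    let ρ : (Γ ⧸ N.subgroupOf Γ) → Γ := Quotient.out
    let K' : Set V := ⋃ q : Γ ⧸ N.subgroupOf Γ, (fun x => ((ρ q)⁻¹ : V ≃ᵃ[ℝ] V) x) '' K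
    have hK' : IsCompact K' := isCompact_iUnion fun q =>
      hK.image (AffineEquiv.continuous_of_finiteDimensional _)
    have hK'Ω : K' ⊆ Ω := by
      intro x hx
      obtain ⟨q, k, hk, rfl⟩ := mem_iUnion.1 hx
      exact H.inv _ (Γ.inv_mem (ρ q).2) _ (hKΩ hk)
    refine ⟨(↑) ⁻¹' K', ?_, ?_⟩
    · refine Topology.IsInducing.subtypeVal.isCompact_preimage' hK' ?_
      rw [Subtype.range_coe]
      exact hK'Ω
    · intro y
      obtain ⟨γ, hγ, hγy⟩ := hcov y y.2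
      let q : Γ ⧸ N.subgroupOf Γ := QuotientGroup.mk ⟨γ, hγ⟩
      have h1 : (QuotientGroup.mk (ρ q) : Γ ⧸ N.subgroupOf Γ) = QuotientGroup.mk ⟨γ, hγ⟩ :=
        QuotientGroup.out_eq' q
      rw [QuotientGroup.eq] at h1
      have h2 : (((ρ q)⁻¹ * ⟨γ, hγ⟩ : Γ) : V ≃ᵃ[ℝ] V) ∈ N := h1
      refine ⟨⟨_, h2⟩, ?_⟩
      refine mem_iUnion.2 ⟨q, γ y, hγy, rfl⟩
  let M : Helper2.MK.AffineDeveloping V N Ω :=
    { dev := (↑)
      hol := fun γ => γ
      dev_local := H.isOpen.isOpenEmbedding_subtypeVal.isLocalHomeomorph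
      hol_mul := fun _ _ _ => rfl
      dev_smul := fun _ _ => rfl
      volume_hol := fun γ => H.vol _ (hNΓ γ.2)
      covering :=
        { continuous_smul := by
            intro g
            refine Continuous.subtype_mk ?_ _
            exact (AffineEquiv.continuous_of_finiteDimensional _).comp continuous_subtype_val
          free := hfree
          proper := hproper
          cocompact := hcoc } }
  obtain ⟨e, he⟩ := K3.Final.complete_le K3.Main.main hV M Subtype.val_injective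
  rw [eq_univ_iff_forall]
  intro x
  have h1 : ((e.symm x : Ω) : V) = x := by
    have h2 : e (e.symm x) = M.dev (e.symm x) := by rw [he]
    rw [e.apply_symm_apply] at h2
    exact h2.symm
  rw [← h1]
  exact (e.symm x).2

end Klein

end Pool.Agent.Helper77.KT
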