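import Pool.Agent.Helper77.KT.Lat

/-!
# Kleinian data, translations, saturation
-/

set_option autoImplicit false

open Set MeasureTheory Module Metric

namespace Pool.Agent.Helper77.KT

/-- `Γ` acts properly and cocompactly on the open connected set `Ω` by volume preserving affine
maps. -/
structure Klein {V : Type*} [NormedAddCommGroup V] [NormedSpace ℝ V] (Γ : Subgroup (V ≃ᵃ[ℝ] V))
    (Ω : Set V) : Prop where
  isOpen : IsOpen Ω
  conn : IsConnected Ω
  inv : ∀ γ ∈ Γ, ∀ x ∈ Ω, γ x ∈ Ω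
  vol : ∀ γ ∈ Γ, |LinearMap.det (γ.linear : V →ₗ[ℝ] V)| = 1
  proper : ∀ K ⊆ Ω, IsCompact K →
    {γ : V ≃ᵃ[ℝ] V | γ ∈ Γ ∧ (((fun x => γ x) '' K) ∩ K).Nonempty}.Finite
  cocompact : ∃ K ⊆ Ω, IsCompact K ∧ ∀ x ∈ Ω, ∃ γ ∈ Γ, γ x ∈ K

section

variable {V : Type*} [NormedAddCommGroup V] [NormedSpace ℝ V]

/-- The translation vectors of `Γ`. -/
def trans (Γ : Subgroup (V ≃ᵃ[ℝ] V)) : AddSubgroup V where
  carrier := {v | AffineEquiv.constVAdd ℝ V v ∈ Γ}
  zero_mem' := by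
    have : AffineEquiv.constVAdd ℝ V (0 : V) = 1 := by
      ext x
      simp
    rw [Set.mem_ofPred_eq, this]
    exact Γ.one_mem
  add_mem' := by
    intro a b ha hb
    have : AffineEquiv.constVAdd ℝ V (a + b) =
        AffineEquiv.constVAdd ℝ V a * AffineEquiv.constVAdd ℝ V b := by
      ext x
      simp
    rw [Set.mem_ofPred_eq, this]
    exact Γ.mul_mem ha hb
  neg_mem' := by
    intro a ha
    have : AffineEquiv.constVAdd ℝ V (-a) = (AffineEquiv.constVAdd ℝ V a)⁻¹ := by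
      rw [eq_inv_iff_mul_eq_one]
      ext x
      simp
    rw [Set.mem_ofPred_eq, this]
    exact Γ.inv_mem ha

theorem mem_trans {Γ : Subgroup (V ≃ᵃ[ℝ] V)} {v : V} :
    v ∈ trans Γ ↔ AffineEquiv.constVAdd ℝ V v ∈ Γ := Iff.rfl

/-- `γ (x + v) = γ x + γ.linear v` -/
theorem map_add' (γ : V ≃ᵃ[ℝ] V) (x v : V) : γ (x + v) = γ x + γ.linear v := by
  have := γ.map_vadd x v
  rw [vadd_eq_add, vadd_eq_add, add_comm, add_comm (γ.linear v)] at this
  exact this

/-- `γ x = γ y + γ.linear (x - y)` -/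
theorem map_sub' (γ : V ≃ᵃ[ℝ] V) (x y : V) : γ x - γ y = γ.linear (x - y) := by
  have := map_add' γ y (x - y)
  rw [add_sub_cancel] at this
  rw [this]
  abel

theorem mem_trans_iff {Γ : Subgroup (V ≃ᵃ[ℝ] V)} {v : V} :
    v ∈ trans Γ ↔ ∃ γ ∈ Γ, ∀ x, γ x = x + v := by
  constructor
  · intro h
    exact ⟨_, h, fun x => by simp [add_comm]⟩
  · rintro ⟨γ, hγ, h⟩
    rw [mem_trans]
    convert hγ
    ext x
    rw [h]
    simp [add_comm]

theorem linear_mem {Γ : Subgroup (V ≃ᵃ[ℝ] V)} {γ : V ≃ᵃ[ℝ] V} (hγ : γ ∈ Γ) {v : V}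
    (hv : v ∈ trans Γ) : γ.linear v ∈ trans Γ := by
  have : AffineEquiv.constVAdd ℝ V (γ.linear v) = γ * AffineEquiv.constVAdd ℝ V v * γ⁻¹ := by
    rw [eq_mul_inv_iff_mul_eq]
    ext x
    have h1 := map_add' γ x v
    rw [add_comm, add_comm (γ x)] at h1
    exact h1.symm
  rw [mem_trans, this]
  exact Γ.mul_mem (Γ.mul_mem hγ hv) (Γ.inv_mem hγ)

theorem linear_symm_mem {Γ : Subgroup (V ≃ᵃ[ℝ] V)} {γ : V ≃ᵃ[ℝ] V} (hγ : γ ∈ Γ) {v : V}
    (hv : v ∈ trans Γ) : γ.linear.symm v ∈ trans Γ :=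
  linear_mem (Γ.inv_mem hγ) hv

/-- Two elements with the same linear part differ by a translation. -/
theorem sub_mem_of_linear_eq {Γ : Subgroup (V ≃ᵃ[ℝ] V)} {γ γ' : V ≃ᵃ[ℝ] V} (hγ : γ ∈ Γ)
    (hγ' : γ' ∈ Γ) (h : γ.linear = γ'.linear) : γ 0 - γ' 0 ∈ trans Γ := by
  have h1 : AffineEquiv.constVAdd ℝ V (γ 0 - γ' 0) = γ * γ'⁻¹ := by
    rw [eq_mul_inv_iff_mul_eq]
    ext x
    rw [AffineEquiv.mul_def]
    have h2 := map_sub' γ x 0
    have h3 := map_sub' γ' x 0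
    rw [h, ← h3] at h2
    simp only [AffineEquiv.trans_apply, AffineEquiv.constVAdd_apply, vadd_eq_add]
    rw [sub_add_eq_add_sub, sub_eq_iff_eq_add, add_comm (γ 0)]
    rw [sub_eq_sub_iff_add_eq_add] at h2
    rw [h2, add_comm]
  rw [mem_trans, h1]
  exact Γ.mul_mem hγ (Γ.inv_mem hγ')

/-- the value of an element with the same linear part -/
theorem apply_of_linear_eq {γ γ' : V ≃ᵃ[ℝ] V} (h : γ.linear = γ'.linear) (x : V) :
    γ x = (γ 0 - γ' 0) + γ' x := by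
  have h2 := map_sub' γ x 0
  have h3 := map_sub' γ' x 0
  rw [h, ← h3] at h2
  rw [sub_eq_iff_eq_add] at h2
  rw [h2]
  abel

/-- The span of the translations. -/
noncomputable def tspan (Γ : Subgroup (V ≃ᵃ[ℝ] V)) : Submodule ℝ V :=
  Submodule.span ℝ (trans Γ : Set V)

theorem linear_tspan {Γ : Subgroup (V ≃ᵃ[ℝ] V)} {γ : V ≃ᵃ[ℝ] V} (hγ : γ ∈ Γ) {v : V}
    (hv : v ∈ tspan Γ) : γ.linear v ∈ tspan Γ := by
  have h : tspan Γ ≤ (tspan Γ).comap (γ.linear : V →ₗ[ℝ] V) := by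
    rw [tspan, Submodule.span_le]
    intro x hx
    exact Submodule.subset_span (linear_mem hγ hx)
  exact h hv

theorem linear_symm_tspan {Γ : Subgroup (V ≃ᵃ[ℝ] V)} {γ : V ≃ᵃ[ℝ] V} (hγ : γ ∈ Γ) {v : V}
    (hv : v ∈ tspan Γ) : γ.linear.symm v ∈ tspan Γ :=
  linear_tspan (Γ.inv_mem hγ) hv

/-- The linear part on the span of the translations. -/
noncomputable def linW {Γ : Subgroup (V ≃ᵃ[ℝ] V)} {γ : V ≃ᵃ[ℝ] V} (hγ : γ ∈ Γ) :
    tspan Γ ≃ₗ[ℝ] tspan Γ :=
  LinearEquiv.ofLinearMap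
    ((γ.linear : V →ₗ[ℝ] V).restrict fun _ h => linear_tspan hγ h)
    ((γ.linear.symm : V →ₗ[ℝ] V).restrict fun _ h => linear_symm_tspan hγ h)
    (by
      ext x
      exact γ.linear.apply_symm_apply x)
    (by
      ext x
      exact γ.linear.symm_apply_apply x)

theorem linW_apply {Γ : Subgroup (V ≃ᵃ[ℝ] V)} {γ : V ≃ᵃ[ℝ] V} (hγ : γ ∈ Γ) (w : tspan Γ) :
    (linW hγ w : V) = γ.linear w := rfl

theorem linW_symm_apply {Γ : Subgroup (V ≃ᵃ[ℝ] V)} {γ : V ≃ᵃ[ℝ] V} (hγ : γ ∈ Γ)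
    (w : tspan Γ) : ((linW hγ).symm w : V) = γ.linear.symm w := rfl

/-- The lattice of translations in its span. -/
noncomputable def lat (Γ : Subgroup (V ≃ᵃ[ℝ] V)) : Submodule ℤ (tspan Γ) :=
  (trans Γ).toIntSubmodule.comap ((tspan Γ).subtype.restrictScalars ℤ)

theorem mem_lat {Γ : Subgroup (V ≃ᵃ[ℝ] V)} {w : tspan Γ} : w ∈ lat Γ ↔ (w : V) ∈ trans Γ :=
  Iff.rfl

theorem span_lat (Γ : Subgroup (V ≃ᵃ[ℝ] V)) :
    Submodule.span ℝ (lat Γ : Set (tspan Γ)) = ⊤ := by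
  have h1 : ((tspan Γ).subtype '' (lat Γ : Set (tspan Γ))) = (trans Γ : Set V) := by
    ext x
    constructor
    · rintro ⟨y, hy, rfl⟩
      exact hy
    · intro hx
      exact ⟨⟨x, Submodule.subset_span hx⟩, hx, rfl⟩
  have h2 : (Submodule.span ℝ (lat Γ : Set (tspan Γ))).map (tspan Γ).subtype = tspan Γ := by
    rw [Submodule.map_span, h1, tspan]
  apply Submodule.map_injective_of_injective (tspan Γ).injective_subtype
  rw [h2, Submodule.map_top, Submodule.range_subtype]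

end

namespace Klein

variable {V : Type*} [NormedAddCommGroup V] [NormedSpace ℝ V] [FiniteDimensional ℝ V]
  {Γ : Subgroup (V ≃ᵃ[ℝ] V)} {Ω : Set V} (H : Klein Γ Ω)

include H

theorem finite_small : ∃ r > 0, ((trans Γ : Set V) ∩ closedBall 0 r).Finite := by
  obtain ⟨x, hx⟩ := H.conn.nonempty
  obtain ⟨r, hr, hrΩ⟩ := Metric.nhds_basis_closedBall.mem_iff.1 (H.isOpen.mem_nhds hx)
  refine ⟨r, hr, ?_⟩
  have h1 := H.proper _ hrΩ (isCompact_closedBall x r)
  refine (h1.image fun γ => γ 0).subset ?_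
  rintro v ⟨hv, hvr⟩
  refine ⟨AffineEquiv.constVAdd ℝ V v, ⟨hv, ?_⟩, by simp⟩
  refine ⟨v + x, ⟨x, mem_closedBall_self hr.le, rfl⟩, ?_⟩
  rw [mem_closedBall, dist_eq_norm] at hvr ⊢
  simpa using hvr

theorem discrete_trans : DiscreteTopology (trans Γ) := by
  obtain ⟨r, hr, hf⟩ := H.finite_small
  -- `0` is isolated
  have h1 : (((trans Γ : Set V) ∩ closedBall 0 r) \ {0}).Finite := hf.subset sdiff_subset
  have h2 : IsOpen ({0} : Set (trans Γ)) := by
    have h3 : IsOpen (ball (0 : V) r \ (((trans Γ : Set V) ∩ closedBall 0 r) \ {0})) :=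
      isOpen_ball.sdiff h1.isClosed
    have h4 := h3.preimage (continuous_subtype_val : Continuous ((↑) : trans Γ → V))
    convert h4
    ext x
    simp only [mem_singleton_iff, mem_preimage, mem_sdiff, mem_inter_iff, SetLike.mem_coe,
      SetLike.coe_mem, true_and, not_and, not_not]
    constructor
    · rintro rfl
      exact ⟨mem_ball_self hr, fun _ => rfl⟩
    · rintro ⟨hb, h⟩
      exact Subtype.ext (h (ball_subset_closedBall hb))
  exact discreteTopology_of_isOpen_singleton_zero h2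

theorem isClosed_trans : IsClosed (trans Γ : Set V) := by
  have := H.discrete_trans
  exact AddSubgroup.isClosed_of_discrete

theorem discrete_lat : DiscreteTopology (lat Γ) := by
  have := H.discrete_trans
  let f : lat Γ → trans Γ := fun w => ⟨(w : tspan Γ), w.2⟩
  have hf : Continuous f := by fun_prop
  have hinj : Function.Injective f := by
    intro a b h
    have h1 := congrArg (fun z : trans Γ => (z : V)) h
    exact Subtype.ext (Subtype.ext h1)
  exact DiscreteTopology.of_continuous_injective hf hinj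

theorem isZLattice : letI := H.discrete_lat; IsZLattice ℝ (lat Γ) :=
  letI := H.discrete_lat
  ⟨span_lat Γ⟩

theorem abs_det_linW {γ : V ≃ᵃ[ℝ] V} (hγ : γ ∈ Γ) :
    |LinearMap.det (linW hγ : tspan Γ →ₗ[ℝ] tspan Γ)| = 1 := by
  have := H.discrete_lat
  have := H.isZLattice
  exact abs_det_eq_one (lat Γ) (linW hγ) (fun x hx => linear_mem hγ hx)
    fun x hx => linear_symm_mem hγ hx

end Klein

end Pool.Agent.Helper77.KT
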