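import Pool.Agent.Helper77.KT.Main
import Pool.Agent.Helper60.KT.SelbergAff

/-!
# From compact affine manifolds with injective developing map to Kleinian data
-/

set_option autoImplicit false

open Set MeasureTheory Module Metric Topology

universe u

namespace Pool.Agent.Helper77.KT

open Pool.Agent.Helper2.MK

section

variable {V : Type u} {G Y : Type*} [NormedAddCommGroup V] [NormedSpace ℝ V]
  [FiniteDimensional ℝ V] [Group G] [TopologicalSpace Y] [ConnectedSpace Y] [MulAction G Y]

/-- The data of a compact affine manifold with injective developing map. -/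
theorem klein_of_developing (M : AffineDeveloping V G Y) (hinj : Function.Injective M.dev) :
    Klein M.holHom.range (range M.dev) where
  isOpen := M.dev_local.isOpenMap.isOpen_range
  conn := isConnected_range M.dev_local.continuous
  inv := by
    rintro _ ⟨g, rfl⟩ _ ⟨y, rfl⟩
    exact ⟨g • y, M.dev_smul g y⟩
  vol := by
    rintro _ ⟨g, rfl⟩
    exact M.volume_hol g
  proper := by
    intro K hK hKc
    have hemb : IsOpenEmbedding M.dev :=
      IsOpenEmbedding.of_continuous_injective_isOpenMap M.dev_local.continuous hinj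
        M.dev_local.isOpenMap
    have hK' : IsCompact (M.dev ⁻¹' K) := hemb.isInducing.isCompact_preimage' hKc hK
    refine ((M.covering.proper _ hK').image M.holHom).subset ?_
    rintro _ ⟨⟨g, rfl⟩, _, ⟨x, hx, rfl⟩, hx'⟩
    obtain ⟨y, rfl⟩ := hK hx
    refine ⟨g, ⟨g • y, ⟨y, hx, rfl⟩, ?_⟩, rfl⟩
    change M.dev (g • y) ∈ K
    rw [M.dev_smul]
    exact hx'
  cocompact := by
    obtain ⟨K, hK, hcov⟩ := M.covering.cocompact
    refine ⟨M.dev '' K, image_subset_range _ _, hK.image M.dev_local.continuous, ?_⟩
    rintro _ ⟨y, rfl⟩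
    obtain ⟨g, hg⟩ := hcov y
    exact ⟨M.holHom g, ⟨g, rfl⟩, g • y, hg, M.dev_smul g y⟩

/-- The flag of translations of a compact affine manifold with injective developing map. -/
theorem complete_of_flag (M : AffineDeveloping V G Y) (hinj : Function.Injective M.dev) (k : ℕ)
    (hk : finrank ℝ V ≤ finrank ℝ (flag M.holHom.range k) + 3) : ∃ e : Y ≃ₜ V, ⇑e = M.dev := by
  have h1 : range M.dev = univ := main_aux (fun W _ _ _ Γ hΓ => KT3.selberg_aff Γ hΓ) k V _ _
    (klein_of_developing M hinj) hk
  exact ⟨M.dev_local.toHomeomorphOfBijective ⟨hinj, range_eq_univ.mp h1⟩, rfl⟩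

end

end Pool.Agent.Helper77.KT
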