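import Pool.Agent.Helper77.KT.Base

/-!
# Induction along the flag of translations
-/

set_option autoImplicit false

open Set MeasureTheory Module Metric Topology
open scoped Pointwise

universe u

namespace Pool.Agent.Helper77.KT

section

variable {V Q : Type*} [NormedAddCommGroup V] [NormedSpace ℝ V] [NormedAddCommGroup Q]
  [NormedSpace ℝ Q]

/-- The span of the vectors `v` such that some element of `Γ` acts on `V ⧸ F` as the translation by
the class of `v`. -/
noncomputable def layer (Γ : Subgroup (V ≃ᵃ[ℝ] V)) (F : Submodule ℝ V) : Submodule ℝ V :=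
  Submodule.span ℝ {v | ∃ γ ∈ Γ, ∀ x, γ x - (x + v) ∈ F}

/-- The flag of translations. -/
noncomputable def flag (Γ : Subgroup (V ≃ᵃ[ℝ] V)) : ℕ → Submodule ℝ V
  | 0 => ⊥
  | k + 1 => layer Γ (flag Γ k)

theorem layer_bot (Γ : Subgroup (V ≃ᵃ[ℝ] V)) : layer Γ ⊥ = tspan Γ := by
  rw [layer, tspan]
  congr 1
  ext v
  rw [Set.mem_ofPred_eq, SetLike.mem_coe, mem_trans_iff]
  refine exists_congr fun γ => and_congr_right fun _ => forall_congr' fun x => ?_
  rw [Submodule.mem_bot, sub_eq_zero]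

theorem layer_comap {Γ : Subgroup (V ≃ᵃ[ℝ] V)} {π : V →ₗ[ℝ] Q} (hπ : Function.Surjective π)
    (hker : LinearMap.ker π = tspan Γ) (F : Submodule ℝ Q) :
    layer Γ (F.comap π) = (layer (quotGroup Γ π hπ) F).comap π := by
  have h1 : {v : V | ∃ γ ∈ Γ, ∀ x, γ x - (x + v) ∈ F.comap π} =
      π ⁻¹' {u : Q | ∃ β ∈ quotGroup Γ π hπ, ∀ y, β y - (y + u) ∈ F} := by
    ext v
    constructor
    · rintro ⟨γ, hγ, h⟩
      obtain ⟨β, hβ⟩ := exists_descent π hπ hker hγ
      refine ⟨β, ⟨γ, hγ, hβ⟩, fun y => ?_⟩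
      obtain ⟨x, rfl⟩ := hπ y
      have h2 := h x
      rw [Submodule.mem_comap, map_sub, map_add] at h2
      rwa [hβ]
    · rintro ⟨β, ⟨γ, hγ, hβ⟩, h⟩
      refine ⟨γ, hγ, fun x => ?_⟩
      have h2 := h (π x)
      rw [hβ] at h2
      rwa [Submodule.mem_comap, map_sub, map_add]
  rw [layer, h1, Submodule.span_preimage_eq ?_ ?_]
  · rfl
  · exact ⟨0, 1, Subgroup.one_mem _, fun y => by simp⟩
  · rw [LinearMap.range_eq_top.2 hπ]
    exact subset_univ _

theorem flag_succ {Γ : Subgroup (V ≃ᵃ[ℝ] V)} {π : V →ₗ[ℝ] Q} (hπ : Function.Surjective π)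
    (hker : LinearMap.ker π = tspan Γ) (k : ℕ) :
    flag Γ (k + 1) = (flag (quotGroup Γ π hπ) k).comap π := by
  induction k with
  | zero =>
    change layer Γ ⊥ = (⊥ : Submodule ℝ Q).comap π
    rw [layer_bot, ← hker, Submodule.comap_bot]
  | succ k ih =>
    change layer Γ (flag Γ (k + 1)) = _
    rw [ih, layer_comap hπ hker]
    rfl

theorem finrank_comap_add [FiniteDimensional ℝ V] {π : V →ₗ[ℝ] Q} (hπ : Function.Surjective π)
    (F : Submodule ℝ Q) :
    finrank ℝ (F.comap π) = finrank ℝ F + finrank ℝ (LinearMap.ker π) := by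
  have h1 : Function.Surjective (π.restrict (p := F.comap π) (q := F) fun _ h => h) := by
    rintro ⟨y, hy⟩
    obtain ⟨x, rfl⟩ := hπ y
    exact ⟨⟨x, hy⟩, rfl⟩
  have h2 := LinearMap.finrank_range_add_finrank_ker
    (π.restrict (p := F.comap π) (q := F) fun _ h => h)
  rw [LinearMap.range_eq_top.2 h1, finrank_top] at h2
  rw [← h2]
  congr 1
  have h3 : (LinearMap.ker (π.restrict (p := F.comap π) (q := F) fun _ h => h)).map
      (F.comap π).subtype = LinearMap.ker π := by
    ext x
    constructor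
    · rintro ⟨y, hy, rfl⟩
      have := congrArg (fun z : F => (z : Q)) (LinearMap.mem_ker.1 hy)
      exact this
    · intro hx
      have hx' : x ∈ F.comap π := by
        rw [Submodule.mem_comap, LinearMap.mem_ker.1 hx]
        exact F.zero_mem
      refine ⟨⟨x, hx'⟩, ?_, rfl⟩
      rw [SetLike.mem_coe, LinearMap.mem_ker]
      exact Subtype.ext hx
  rw [← h3]
  exact (LinearEquiv.finrank_eq (Submodule.equivSubtypeMap _ _)).trans rfl

end

/-- Kleinian data whose flag of translations has a member of codimension at most three is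
complete. -/
theorem main_aux
    (hsel : ∀ (W : Type u) [NormedAddCommGroup W] [NormedSpace ℝ W] [FiniteDimensional ℝ W],
      SelbergLemma W) (k : ℕ) :
    ∀ (V : Type u) [NormedAddCommGroup V] [NormedSpace ℝ V] [FiniteDimensional ℝ V]
      (Γ : Subgroup (V ≃ᵃ[ℝ] V)) (Ω : Set V), Klein Γ Ω →
      finrank ℝ V ≤ finrank ℝ (flag Γ k) + 3 → Ω = univ := by
  induction k with
  | zero =>
    intro V _ _ _ Γ Ω H h
    refine H.base (hsel V) ?_
    have h1 : finrank ℝ (flag Γ 0) = 0 := finrank_bot ℝ V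
    rwa [h1, zero_add] at h
  | succ k ih =>
    intro V _ _ _ Γ Ω H h
    have hcl : IsClosed ((tspan Γ : Submodule ℝ V) : Set V) :=
      Submodule.closed_of_finiteDimensional _
    let π : V →ₗ[ℝ] (V ⧸ tspan Γ) := (tspan Γ).mkQ
    have hπ : Function.Surjective π := Submodule.mkQ_surjective _
    have hker : LinearMap.ker π = tspan Γ := Submodule.ker_mkQ _
    have H' : Klein (quotGroup Γ π hπ) (π '' Ω) := H.quot hπ hker
    have h1 : finrank ℝ (V ⧸ tspan Γ) + finrank ℝ (tspan Γ) = finrank ℝ V :=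
      Submodule.finrank_quotient_add_finrank _
    have h2 := finrank_comap_add hπ (flag (quotGroup Γ π hπ) k)
    rw [← flag_succ hπ hker, hker] at h2
    have h3 := ih (V ⧸ tspan Γ) (quotGroup Γ π hπ) (π '' Ω) H' (by omega)
    rw [eq_univ_iff_forall]
    intro x
    refine H.mem_of_image hker (x := x) ?_
    rw [h3]
    exact mem_univ _

end Pool.Agent.Helper77.KT
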