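import Pool.Agent.Helper77.KT.Sat

/-!
# The quotient by the span of the translations
-/

set_option autoImplicit false

open Set MeasureTheory Module Metric
open scoped Pointwise

namespace Pool.Agent.Helper77.KT

section

variable {V Q : Type*} [NormedAddCommGroup V] [NormedSpace ℝ V] [NormedAddCommGroup Q]
  [NormedSpace ℝ Q]

/-- The group induced by `Γ` on the image `Q` of `π`. -/
def quotGroup (Γ : Subgroup (V ≃ᵃ[ℝ] V)) (π : V →ₗ[ℝ] Q) (hπ : Function.Surjective π) :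
    Subgroup (Q ≃ᵃ[ℝ] Q) where
  carrier := {β | ∃ γ ∈ Γ, ∀ x, β (π x) = π (γ x)}
  one_mem' := ⟨1, Γ.one_mem, fun _ => rfl⟩
  mul_mem' := by
    rintro a b ⟨α, hα, h⟩ ⟨β, hβ, h'⟩
    refine ⟨α * β, Γ.mul_mem hα hβ, fun x => ?_⟩
    change a (b (π x)) = π (α (β x))
    rw [h', h]
  inv_mem' := by
    rintro a ⟨α, hα, h⟩
    refine ⟨α⁻¹, Γ.inv_mem hα, fun x => ?_⟩
    change a.symm (π x) = π (α.symm x)
    rw [AffineEquiv.symm_apply_eq, h, AffineEquiv.apply_symm_apply]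

theorem mem_quotGroup {Γ : Subgroup (V ≃ᵃ[ℝ] V)} {π : V →ₗ[ℝ] Q} {hπ : Function.Surjective π}
    {β : Q ≃ᵃ[ℝ] Q} : β ∈ quotGroup Γ π hπ ↔ ∃ γ ∈ Γ, ∀ x, β (π x) = π (γ x) := Iff.rfl

/-- Elements of `Γ` descend. -/
theorem exists_descent {Γ : Subgroup (V ≃ᵃ[ℝ] V)} (π : V →ₗ[ℝ] Q)
    (hπ : Function.Surjective π) (hker : LinearMap.ker π = tspan Γ) {γ : V ≃ᵃ[ℝ] V}
    (hγ : γ ∈ Γ) : ∃ β : Q ≃ᵃ[ℝ] Q, ∀ x, β (π x) = π (γ x) := by
  have hmap : (tspan Γ).map (γ.linear : V →ₗ[ℝ] V) = tspan Γ := by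
    apply le_antisymm
    · rintro _ ⟨w, hw, rfl⟩
      exact linear_tspan hγ hw
    · intro w hw
      exact ⟨γ.linear.symm w, linear_symm_tspan hγ hw, γ.linear.apply_symm_apply w⟩
  rw [← hker] at hmap
  let e : (V ⧸ LinearMap.ker π) ≃ₗ[ℝ] Q := π.quotKerEquivOfSurjective hπ
  let f : (V ⧸ LinearMap.ker π) ≃ₗ[ℝ] (V ⧸ LinearMap.ker π) :=
    Submodule.Quotient.equiv _ _ γ.linear hmap
  let g : Q ≃ₗ[ℝ] Q := (e.symm.trans f).trans e
  have hg : ∀ x, g (π x) = π (γ.linear x) := by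
    intro x
    have h1 : e.symm (π x) = Submodule.Quotient.mk x := by
      rw [LinearEquiv.symm_apply_eq]
      rfl
    change e (f (e.symm (π x))) = _
    rw [h1]
    rfl
  refine ⟨g.toAffineEquiv.trans (AffineEquiv.constVAdd ℝ Q (π (γ 0))), fun x => ?_⟩
  change π (γ 0) + g (π x) = π (γ x)
  rw [hg, ← map_add]
  congr 1
  have := map_add' γ 0 x
  rw [zero_add] at this
  exact this.symm

/-- The linear part of the descent. -/
theorem descent_linear {π : V →ₗ[ℝ] Q} {γ : V ≃ᵃ[ℝ] V} {β : Q ≃ᵃ[ℝ] Q}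
    (h : ∀ x, β (π x) = π (γ x)) (x : V) : β.linear (π x) = π (γ.linear x) := by
  have h1 := map_sub' β (π x) (π 0)
  have h2 := map_sub' γ x 0
  rw [h, h, ← map_sub π, ← map_sub π, h2] at h1
  simpa using h1.symm

/-- The determinant of the descent. -/
theorem det_descent [FiniteDimensional ℝ V] {Γ : Subgroup (V ≃ᵃ[ℝ] V)} {π : V →ₗ[ℝ] Q}
    (hπ : Function.Surjective π) (hker : LinearMap.ker π = tspan Γ) {γ : V ≃ᵃ[ℝ] V}
    (hγ : γ ∈ Γ) {β : Q ≃ᵃ[ℝ] Q} (h : ∀ x, β (π x) = π (γ x)) :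
    LinearMap.det (γ.linear : V →ₗ[ℝ] V) =
      LinearMap.det (linW hγ : tspan Γ →ₗ[ℝ] tspan Γ) *
        LinearMap.det (β.linear : Q →ₗ[ℝ] Q) := by
  have hle : LinearMap.ker π ≤ (LinearMap.ker π).comap (γ.linear : V →ₗ[ℝ] V) := by
    rw [hker]
    intro w hw
    exact linear_tspan hγ hw
  have h1 := LinearMap.det_eq_det_mul_det (LinearMap.ker π) (γ.linear : V →ₗ[ℝ] V) hle
  rw [h1]
  congr 1
  · -- restriction
    let e : LinearMap.ker π ≃ₗ[ℝ] tspan Γ := LinearEquiv.ofEq _ _ hker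
    rw [← LinearMap.det_conj _ e]
    congr 1
  · let e : (V ⧸ LinearMap.ker π) ≃ₗ[ℝ] Q := π.quotKerEquivOfSurjective hπ
    rw [← LinearMap.det_conj _ e]
    congr 1
    apply LinearMap.ext
    intro y
    obtain ⟨x, rfl⟩ := hπ y
    have h2 : e.symm (π x) = Submodule.Quotient.mk x := by
      rw [LinearEquiv.symm_apply_eq]
      rfl
    simp only [LinearMap.comp_apply, LinearEquiv.coe_coe]
    rw [h2]
    exact (descent_linear h x).symm

end

namespace Klein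

variable {V Q : Type*} [NormedAddCommGroup V] [NormedSpace ℝ V] [FiniteDimensional ℝ V]
  [NormedAddCommGroup Q] [NormedSpace ℝ Q]
  {Γ : Subgroup (V ≃ᵃ[ℝ] V)} {Ω : Set V} (H : Klein Γ Ω)

include H

theorem mem_of_image {π : V →ₗ[ℝ] Q} (hker : LinearMap.ker π = tspan Γ) {x : V}
    (h : π x ∈ π '' Ω) : x ∈ Ω := by
  obtain ⟨y, hy, hyx⟩ := h
  have h1 : x - y ∈ tspan Γ := by
    rw [← hker, LinearMap.mem_ker, map_sub, hyx, sub_self]
  have h2 := H.saturated hy h1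
  rwa [add_sub_cancel] at h2

/-- bounded representatives modulo the translations -/
theorem exists_bounded_rep : ∃ F : Set V, IsCompact F ∧ F ⊆ tspan Γ ∧ 0 ∈ F ∧
    ∀ w ∈ tspan Γ, ∃ n ∈ trans Γ, w - n ∈ F := by
  have := H.discrete_lat
  have := H.isZLattice
  have : Module.Finite ℤ (lat Γ) := ZLattice.module_finite ℝ (lat Γ)
  have : Module.Free ℤ (lat Γ) := ZLattice.module_free ℝ (lat Γ)
  let b := Module.Free.chooseBasis ℤ (lat Γ)
  let B := b.ofZLatticeBasis ℝ (lat Γ)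
  have hb : Bornology.IsBounded (ZSpan.fundamentalDomain B) := ZSpan.fundamentalDomain_isBounded _
  refine ⟨(fun w : tspan Γ => (w : V)) '' (closure (ZSpan.fundamentalDomain B) ∪ {0}), ?_, ?_, ?_, ?_⟩
  · exact (hb.isCompact_closure.union isCompact_singleton).image continuous_subtype_val
  · rintro _ ⟨w, _, rfl⟩
    exact w.2
  · exact ⟨0, Or.inr rfl, rfl⟩
  · intro w hw
    have h1 : Submodule.span ℤ (range B) = lat Γ := b.ofZLatticeBasis_span ℝ (lat Γ)
    have h2 : ((ZSpan.floor B ⟨w, hw⟩ : Submodule.span ℤ (range B)) : tspan Γ) ∈ lat Γ := by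
      exact h1.le (ZSpan.floor B ⟨w, hw⟩).2
    refine ⟨((ZSpan.floor B ⟨w, hw⟩ : Submodule.span ℤ (range B)) : tspan Γ), h2, ?_⟩
    refine ⟨ZSpan.fract B ⟨w, hw⟩, Or.inl (subset_closure (ZSpan.fract_mem_fundamentalDomain B _)),
      ?_⟩
    rw [ZSpan.fract_apply]
    rfl

/-- The quotient of Kleinian data by the span of the translations is Kleinian data. -/
theorem quot [FiniteDimensional ℝ Q] {π : V →ₗ[ℝ] Q} (hπ : Function.Surjective π)
    (hker : LinearMap.ker π = tspan Γ) : Klein (quotGroup Γ π hπ) (π '' Ω) where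
  isOpen := by
    have h1 : IsOpenMap π := LinearMap.isOpenMap_of_finiteDimensional π hπ
    exact h1 _ H.isOpen
  conn := H.conn.image _ (LinearMap.continuous_of_finiteDimensional π).continuousOn
  inv := by
    rintro β ⟨γ, hγ, h⟩ _ ⟨x, hx, rfl⟩
    exact ⟨γ x, H.inv γ hγ x hx, (h x).symm⟩
  vol := by
    rintro β ⟨γ, hγ, h⟩
    have h1 := det_descent hπ hker hγ h
    have h2 := H.vol γ hγ
    rw [h1, abs_mul, H.abs_det_linW hγ, one_mul] at h2
    exact h2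
  proper := by
    intro K hK hKc
    obtain ⟨s, hs⟩ := π.exists_rightInverse_of_surjective (LinearMap.range_eq_top.2 hπ)
    have hs' : ∀ y, π (s y) = y := fun y => LinearMap.congr_fun hs y
    obtain ⟨F, hF, hFW, h0, hFr⟩ := H.exists_bounded_rep
    have hKs : IsCompact (s '' K) := hKc.image (LinearMap.continuous_of_finiteDimensional s)
    have hK₃ : IsCompact (s '' K + F) := hKs.add hF
    have hK₃Ω : s '' K + F ⊆ Ω := by
      rintro _ ⟨_, ⟨k, hk, rfl⟩, f, hf, rfl⟩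
      refine H.saturated ?_ (hFW hf)
      refine H.mem_of_image hker (x := s k) ?_
      rw [hs']
      exact hK hk
    have h1 := H.proper _ hK₃Ω hK₃
    set S := {γ : V ≃ᵃ[ℝ] V | γ ∈ Γ ∧ (((fun x => γ x) '' (s '' K + F)) ∩ (s '' K + F)).Nonempty}
      with hS
    have h2 : (⋃ γ ∈ S, {β : Q ≃ᵃ[ℝ] Q | ∀ x, β (π x) = π (γ x)}).Finite := by
      refine h1.biUnion fun γ _ => ?_
      refine Set.Subsingleton.finite ?_
      intro β hβ β' hβ'
      apply AffineEquiv.ext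
      intro y
      obtain ⟨x, rfl⟩ := hπ y
      rw [hβ, hβ']
    refine h2.subset ?_
    rintro β ⟨⟨γ, hγ, h⟩, _, ⟨k, hk, rfl⟩, hk'⟩
    have hk'' : β k ∈ K := hk'
    have h3 : π (γ (s k)) = β k := by rw [← h, hs']
    have h4 : γ (s k) - s (β k) ∈ tspan Γ := by
      rw [← hker, LinearMap.mem_ker, map_sub, h3, hs', sub_self]
    obtain ⟨n, hn, hnF⟩ := hFr _ h4
    refine mem_biUnion (x := AffineEquiv.constVAdd ℝ V (-n) * γ) ?_ ?_
    · refine ⟨Γ.mul_mem (neg_mem hn) hγ, -n + γ (s k), ⟨s k, ?_, rfl⟩, ?_⟩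
      · refine ⟨s k, ⟨k, hk, rfl⟩, 0, h0, by simp⟩
      · refine ⟨s (β k), ⟨_, hk'', rfl⟩, _, hnF, ?_⟩
        change s (β k) + (γ (s k) - s (β k) - n) = _
        abel
    · intro x
      change β (π x) = π (-n + γ x)
      have h5 : π n = 0 := by
        rw [← LinearMap.mem_ker, hker]
        exact Submodule.subset_span hn
      rw [map_add, map_neg, h5, neg_zero, zero_add, h]
  cocompact := by
    obtain ⟨K, hK, hKc, hcov⟩ := H.cocompact
    refine ⟨π '' K, image_mono hK, hKc.image (LinearMap.continuous_of_finiteDimensional π), ?_⟩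
    rintro _ ⟨x, hx, rfl⟩
    obtain ⟨γ, hγ, hγx⟩ := hcov x hx
    obtain ⟨β, hβ⟩ := exists_descent π hπ hker hγ
    exact ⟨β, ⟨γ, hγ, hβ⟩, γ x, hγx, (hβ x).symm⟩

end Klein

end Pool.Agent.Helper77.KT
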