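import Pool.Agent.Helper77.KT.Basic

/-!
# Saturation: the domain is a union of cosets of the span of the translations
-/

set_option autoImplicit false

open Set MeasureTheory Module Metric
open scoped Pointwise

namespace Pool.Agent.Helper77.KT

namespace Klein

variable {V : Type*} [NormedAddCommGroup V] [NormedSpace ℝ V] [FiniteDimensional ℝ V]
  {Γ : Subgroup (V ≃ᵃ[ℝ] V)} {Ω : Set V} (H : Klein Γ Ω)

/-- The piece of the coset `x + W` which `γ` brings into the ball around `z`. -/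
def piece (Γ : Subgroup (V ≃ᵃ[ℝ] V)) (x : V) (ε : ℝ) (γ : V ≃ᵃ[ℝ] V) (z : V) :
    Set (tspan Γ) :=
  {w | γ.symm (x + w) ∈ ball z ε}

omit [FiniteDimensional ℝ V] in
theorem piece_eq {x : V} {ε : ℝ} {γ : V ≃ᵃ[ℝ] V} (hγ : γ ∈ Γ) {z : V} {w₀ : tspan Γ}
    (h : γ z = x + w₀) :
    piece Γ x ε γ z = (fun w => w + (-w₀)) ⁻¹' ((linW hγ).symm ⁻¹' (ball 0 ε)) := by
  ext w
  have h1 : z = γ.symm (x + w₀) := by
    rw [← h]
    exact (γ.symm_apply_apply z).symm
  have h2 : γ.symm (x + w) - z = γ.symm.linear ((w : V) - w₀) := by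
    rw [h1, map_sub', add_sub_add_left_eq_sub]
  have h3 : γ.symm (x + w) - z = ((linW hγ).symm (w + (-w₀)) : V) := by
    rw [h2, linW_symm_apply]
    simp [sub_eq_add_neg]
  rw [piece, Set.mem_ofPred_eq, mem_ball, dist_eq_norm, h3, mem_preimage, mem_preimage, mem_ball,
    dist_zero_right]
  rfl

include H

/-- Only finitely many linear parts occur among the elements of `Γ` which move a given compact set
to a set meeting a given coset of the span of the translations. -/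
theorem finite_linear {K : Set V} (hK : IsCompact K) (hKΩ : K ⊆ Ω) (x : V) :
    {A : V ≃ₗ[ℝ] V | ∃ γ ∈ Γ, γ.linear = A ∧ ∃ z ∈ K, ∃ w ∈ tspan Γ, γ z = x + w}.Finite := by
  classical
  obtain ⟨ε, hε, hεΩ⟩ := hK.exists_cthickening_subset_open H.isOpen hKΩ
  set K₁ := cthickening ε K with hK₁
  have hK₁c : IsCompact K₁ := hK.cthickening
  set S := {γ : V ≃ᵃ[ℝ] V | γ ∈ Γ ∧ (((fun x => γ x) '' K₁) ∩ K₁).Nonempty} with hS
  have hSf : S.Finite := H.proper K₁ hεΩ hK₁c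
  by_contra hinf
  set Q := {A : V ≃ₗ[ℝ] V | ∃ γ ∈ Γ, γ.linear = A ∧ ∃ z ∈ K, ∃ w ∈ tspan Γ, γ z = x + w}
    with hQ
  have hQinf : Q.Infinite := hinf
  let _ : MeasurableSpace (tspan Γ) := borel (tspan Γ)
  have : BorelSpace (tspan Γ) := ⟨rfl⟩
  have := H.discrete_lat
  have := H.isZLattice
  let μ : Measure (tspan Γ) := Measure.addHaar
  obtain ⟨c, hc, hcount⟩ := count μ (lat Γ)
  set v := μ (ball 0 ε) with hv
  have hv0 : v ≠ 0 := (isOpen_ball.measure_pos μ ⟨0, mem_ball_self hε⟩).ne'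
  have hfc : ((S.ncard : ENNReal)) * c ≠ ⊤ := ENNReal.mul_ne_top (ENNReal.natCast_ne_top _) hc
  obtain ⟨m, hm⟩ := ENNReal.exists_nat_mul_gt hv0 hfc
  obtain ⟨t, htQ, htm⟩ := hQinf.exists_subset_card_eq m
  choose γ hγ hγA z hz w₀ hw₀ hγz using fun q : t => htQ q.2
  let D : t → Set (tspan Γ) := fun q => piece Γ x ε (γ q) (z q)
  have hDo : ∀ q, IsOpen (D q) := by
    intro q
    have h1 : Continuous fun w : tspan Γ => (γ q).symm (x + w) := by
      have h2 : Continuous (γ q).symm := AffineEquiv.continuous_of_finiteDimensional _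
      exact h2.comp (continuous_const.add continuous_subtype_val)
    exact isOpen_ball.preimage h1
  have hDv : ∀ q, v ≤ μ (D q) := by
    intro q
    have h1 := piece_eq (ε := ε) (hγ q) (w₀ := ⟨w₀ q, hw₀ q⟩) (hγz q)
    change v ≤ μ (piece Γ x ε (γ q) (z q))
    have h2 : |LinearMap.det ((linW (hγ q)).symm.symm : tspan Γ →ₗ[ℝ] tspan Γ)| = 1 :=
      H.abs_det_linW (hγ q)
    rw [h1, measure_preimage_add_right, Measure.addHaar_preimage_linearEquiv, h2]
    simp [hv]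
  have hmult : ∀ p, {q : t × lat Γ | (q.2 : tspan Γ) + p ∈ D q.1}.encard ≤ S.ncard := by
    intro p
    set T := {q : t × lat Γ | (q.2 : tspan Γ) + p ∈ D q.1} with hT
    rcases T.eq_empty_or_nonempty with h0 | ⟨q₀, hq₀⟩
    · rw [h0]
      simp
    -- the elements `δ q` with `x + p ∈ δ q K₁`
    let τ : lat Γ → (V ≃ᵃ[ℝ] V) := fun g => AffineEquiv.constVAdd ℝ V (-((g : tspan Γ) : V))
    have hτ : ∀ g, τ g ∈ Γ := fun g => neg_mem (s := (trans Γ)) g.2
    let δ : t × lat Γ → (V ≃ᵃ[ℝ] V) := fun q => τ q.2 * γ q.1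
    have hδ : ∀ q, δ q ∈ Γ := fun q => Γ.mul_mem (hτ _) (hγ _)
    have hδK : ∀ q ∈ T, ∃ k ∈ K₁, δ q k = x + p := by
      intro q hq
      have h1 : (γ q.1).symm (x + (((q.2 : tspan Γ) + p : tspan Γ) : V)) ∈ ball (z q.1) ε := hq
      refine ⟨(γ q.1).symm (x + (((q.2 : tspan Γ) + p : tspan Γ) : V)), ?_, ?_⟩
      · refine mem_cthickening_of_dist_le _ (z q.1) ε K (hz _) (mem_ball.1 h1).le
      · change -((q.2 : tspan Γ) : V) + (γ q.1) ((γ q.1).symm _) = _
        rw [AffineEquiv.apply_symm_apply]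
        push_cast
        abel
    have hδS : ∀ q ∈ T, (δ q₀)⁻¹ * δ q ∈ S := by
      intro q hq
      obtain ⟨k, hk, hk'⟩ := hδK q hq
      obtain ⟨k₀, hk₀, hk₀'⟩ := hδK q₀ hq₀
      refine ⟨Γ.mul_mem (Γ.inv_mem (hδ _)) (hδ _), k₀, ⟨k, hk, ?_⟩, hk₀⟩
      change (δ q₀).symm (δ q k) = k₀
      rw [hk', ← hk₀', AffineEquiv.symm_apply_apply]
    have hinj : InjOn (fun q => (δ q₀)⁻¹ * δ q) T := by
      intro q _ q' _ h
      have h1 : δ q = δ q' := mul_left_cancel h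
      have h2 : (γ q.1).linear = (γ q'.1).linear := by
        have h3 := congrArg AffineEquiv.linear h1
        exact h3
      rw [hγA, hγA] at h2
      have h5 : q.1 = q'.1 := Subtype.ext h2
      have h6 : δ q 0 = δ q' 0 := by rw [h1]
      change -((q.2 : tspan Γ) : V) + γ q.1 0 = -((q'.2 : tspan Γ) : V) + γ q'.1 0 at h6
      rw [h5, add_left_inj, neg_inj] at h6
      exact Prod.ext h5 (Subtype.ext (Subtype.ext h6))
    rw [← hinj.encard_image, hSf.cast_ncard_eq]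
    exact encard_le_encard (image_subset_iff.2 hδS)
  have h1 := hcount t D S.ncard v (fun q => (hDo q).measurableSet) hDv hmult
  rw [Fintype.card_coe, htm] at h1
  exact absurd h1 (not_le.2 hm)

/-- The domain is a union of cosets of the span of the translations. -/
theorem saturated {x : V} (hx : x ∈ Ω) {w : V} (hw : w ∈ tspan Γ) : x + w ∈ Ω := by
  obtain ⟨K, hKΩ, hK, hcov⟩ := H.cocompact
  have hfin := H.finite_linear hK hKΩ x
  set Q := {A : V ≃ₗ[ℝ] V | ∃ γ ∈ Γ, γ.linear = A ∧ ∃ z ∈ K, ∃ w ∈ tspan Γ, γ z = x + w}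
    with hQ
  choose! ρ hρ hρA _ using fun (A : V ≃ₗ[ℝ] V) (hA : A ∈ Q) => hA
  let C : Set V := ⋃ A ∈ Q, ((trans Γ : Set V) + (fun y => ρ A y) '' K)
  have hC : IsClosed C := by
    refine hfin.isClosed_biUnion fun A _ => ?_
    refine H.isClosed_trans.add_right_of_isCompact ?_
    exact hK.image (AffineEquiv.continuous_of_finiteDimensional _)
  have h1 : {w : tspan Γ | x + (w : V) ∈ Ω} = {w : tspan Γ | x + (w : V) ∈ C} := by
    ext w
    simp only [Set.mem_ofPred_eq]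
    constructor
    · intro h
      obtain ⟨γ, hγ, hγK⟩ := hcov _ h
      have hA : (γ⁻¹).linear ∈ Q := ⟨γ⁻¹, Γ.inv_mem hγ, rfl, _, hγK, w, w.2,
        γ.symm_apply_apply _⟩
      refine mem_biUnion hA ?_
      refine ⟨(γ⁻¹ : V ≃ᵃ[ℝ] V) 0 - ρ (γ⁻¹).linear 0, ?_, ρ (γ⁻¹).linear (γ (x + w)), ?_, ?_⟩
      · exact sub_mem_of_linear_eq (Γ.inv_mem hγ) (hρ _ hA) (hρA _ hA).symm
      · exact ⟨_, hγK, rfl⟩
      · change (γ⁻¹ : V ≃ᵃ[ℝ] V) 0 - ρ (γ⁻¹).linear 0 + ρ (γ⁻¹).linear (γ (x + w)) = x + w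
        rw [← apply_of_linear_eq (hρA _ hA).symm]
        exact γ.symm_apply_apply _
    · intro h
      obtain ⟨A, hA, n, hn, _, ⟨k, hk, rfl⟩, he⟩ := mem_iUnion₂.1 h
      change n + ρ A k = x + w at he
      rw [← he]
      exact H.inv _ hn _ (H.inv _ (hρ A hA) _ (hKΩ hk))
  have hcont : Continuous fun w : tspan Γ => x + (w : V) :=
    continuous_const.add continuous_subtype_val
  have h2 : IsClopen {w : tspan Γ | x + (w : V) ∈ Ω} := by
    refine ⟨?_, H.isOpen.preimage hcont⟩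
    rw [h1]
    exact hC.preimage hcont
  have h3 : {w : tspan Γ | x + (w : V) ∈ Ω} = univ := by
    refine h2.eq_univ ⟨0, ?_⟩
    simpa using hx
  have h4 : (⟨w, hw⟩ : tspan Γ) ∈ {w : tspan Γ | x + (w : V) ∈ Ω} := by
    rw [h3]
    trivial
  exact h4

end Klein

end Pool.Agent.Helper77.KT
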